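import Pool.Agent.Lib.MP_8a5648_co.Mg.G001

/-! The splitting lemma: both halves good and a crossing pair. -/

namespace Pool.Agent.Locke

variable {n : ℕ}

/-! ### projection, ports -/

/-- forget coordinate `i` -/
def prj (i : Fin (n + 1)) (z : V (n + 1)) : V n := fun j => z (i.succAbove j)

lemma prj_ins (i : Fin (n + 1)) (b : Bool) (x : V n) : prj i (ins i b x) = x := by
  funext j
  simp only [prj, ins_succAbove]

lemma ins_prj (i : Fin (n + 1)) (z : V (n + 1)) : ins i (z i) (prj i z) = z := by
  obtain ⟨x, hx⟩ := exists_ins i z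
  have h : prj i z = x := by rw [hx, prj_ins]
  rw [h]
  exact hx.symm

/-- the partner of a vertex of the half `b` is in the other half -/
def port (i : Fin (n + 1)) (b : Bool) (σ : V (n + 1) → V (n + 1)) (x : V n) : Prop :=
  σ (ins i b x) i ≠ b

/-- the projection of the partner -/
def crs (i : Fin (n + 1)) (b : Bool) (σ : V (n + 1) → V (n + 1)) (x : V n) : V n :=
  prj i (σ (ins i b x))

section
variable {i : Fin (n + 1)} {b : Bool} {ω : V (n + 1) → ℕ} {σ : V (n + 1) → V (n + 1)}

lemma sig_nonport {x : V n} (h : ¬ port i b σ x) : σ (ins i b x) = ins i b (crs i b σ x) := by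
  have h' : σ (ins i b x) i = b := not_not.mp h
  have := ins_prj i (σ (ins i b x))
  rw [h'] at this
  exact this.symm

lemma sig_port {x : V n} (h : port i b σ x) : σ (ins i b x) = ins i (!b) (crs i b σ x) := by
  have h' : σ (ins i b x) i = !b := by
    have := h
    unfold port at this
    revert this
    cases b <;> cases (σ (ins i _ x) i) <;> simp
  have := ins_prj i (σ (ins i b x))
  rw [h'] at this
  exact this.symm

lemma nonport_crs (hσ : IsPairing ω σ) {x : V n} (h : ¬ port i b σ x) :
    ¬ port i b σ (crs i b σ x) ∧ crs i b σ (crs i b σ x) = x := by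
  have h1 : σ (ins i b (crs i b σ x)) = ins i b x := by rw [← sig_nonport h, hσ.inv]
  constructor
  · unfold port
    rw [h1, ins_apply_self]
    simp
  · unfold crs at h1 ⊢
    rw [h1, prj_ins]

lemma port_crs (hσ : IsPairing ω σ) {x : V n} (h : port i b σ x) :
    port i (!b) σ (crs i b σ x) ∧ crs i (!b) σ (crs i b σ x) = x := by
  have h1 : σ (ins i (!b) (crs i b σ x)) = ins i b x := by rw [← sig_port h, hσ.inv]
  constructor
  · unfold port
    rw [h1, ins_apply_self]
    cases b <;> simp
  · unfold crs at h1 ⊢
    rw [h1, prj_ins]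

lemma port_terminal (hσ : IsPairing ω σ) {x : V n} (h : port i b σ x) : half i b ω x = 1 := by
  unfold half
  rw [← hσ.ne_iff]
  intro he
  apply h
  rw [he, ins_apply_self]

lemma nonport_ne_iff (hσ : IsPairing ω σ) {x : V n} (h : ¬ port i b σ x) :
    crs i b σ x ≠ x ↔ half i b ω x = 1 := by
  unfold half
  rw [← hσ.ne_iff, sig_nonport h, Ne, Ne, ins_inj]
  simp

open Classical in
/-- the pairing of the half `b`: internal partners, and the ports are paired by `τ` -/
noncomputable def halfPair (i : Fin (n + 1)) (b : Bool) (σ : V (n + 1) → V (n + 1))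
    (τ : V n → V n) : V n → V n :=
  fun x => if port i b σ x then τ x else crs i b σ x

lemma halfPair_port {τ : V n → V n} {x : V n} (h : port i b σ x) :
    halfPair i b σ τ x = τ x := by
  unfold halfPair; rw [if_pos h]

lemma halfPair_nonport {τ : V n → V n} {x : V n} (h : ¬ port i b σ x) :
    halfPair i b σ τ x = crs i b σ x := by
  unfold halfPair; rw [if_neg h]

lemma isPairing_halfPair (hσ : IsPairing ω σ) {τ : V n → V n}
    (hτ : ∀ x, port i b σ x → port i b σ (τ x) ∧ τ x ≠ x ∧ τ (τ x) = x) :
    IsPairing (half i b ω) (halfPair i b σ τ) where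
  inv := by
    intro x
    by_cases h : port i b σ x
    · rw [halfPair_port h, halfPair_port (hτ x h).1, (hτ x h).2.2]
    · rw [halfPair_nonport h, halfPair_nonport (nonport_crs hσ h).1, (nonport_crs hσ h).2]
  ne_iff := by
    intro x
    by_cases h : port i b σ x
    · rw [halfPair_port h]
      exact ⟨fun _ => port_terminal hσ h, fun _ => (hτ x h).2.1⟩
    · rw [halfPair_nonport h]
      exact nonport_ne_iff hσ h

/-! ### gluing graphs of the two halves -/

/-- the graph on the `(n+1)`-cube with the graph `N b` on the half `b` -/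
def glue (i : Fin (n + 1)) (N : Bool → SimpleGraph (V n)) : SimpleGraph (V (n + 1)) where
  Adj z w := z i = w i ∧ (N (z i)).Adj (prj i z) (prj i w)
  symm := by
    constructor
    intro z w h
    exact ⟨h.1.symm, by rw [← h.1]; exact h.2.symm⟩
  loopless := by
    constructor
    intro z h
    exact (N (z i)).loopless.irrefl _ h.2

lemma glue_adj {N : Bool → SimpleGraph (V n)} {c : Bool} {x y : V n} :
    (glue i N).Adj (ins i b x) (ins i c y) ↔ b = c ∧ (N b).Adj x y := by
  simp only [glue, ins_apply_self, prj_ins]

lemma glue_neighborSet (N : Bool → SimpleGraph (V n)) (x : V n) :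
    (glue i N).neighborSet (ins i b x) = ins i b '' (N b).neighborSet x := by
  ext z
  simp only [SimpleGraph.mem_neighborSet, Set.mem_image]
  constructor
  · intro h
    obtain ⟨y, hy⟩ := exists_ins i z
    rw [hy, glue_adj] at h
    refine ⟨y, h.2, ?_⟩
    rw [h.1]
    exact hy.symm
  · rintro ⟨y, hy, rfl⟩
    rw [glue_adj]
    exact ⟨rfl, hy⟩

lemma ins_injective (i : Fin (n + 1)) (b : Bool) : Function.Injective (ins (n := n) i b) := by
  intro x y h
  exact (ins_inj.mp h).2

lemma glue_ncard (N : Bool → SimpleGraph (V n)) (x : V n) :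
    ((glue i N).neighborSet (ins i b x)).ncard = ((N b).neighborSet x).ncard := by
  rw [glue_neighborSet, Set.ncard_image_of_injective _ (ins_injective i b)]

lemma glue_le {N : Bool → SimpleGraph (V n)} (h : ∀ b, N b ≤ Q n) : glue i N ≤ Q (n + 1) := by
  intro z w hzw
  have h1 := hzw.1
  have h2 := h _ hzw.2
  rw [← ins_prj i z, ← ins_prj i w, ← h1]
  exact adj_ins_same.mpr h2

end

/-! ### reachability -/

lemma reach_map {α β : Type*} {H : SimpleGraph α} {G : SimpleGraph β} (f : α → β)
    (h : ∀ x y, H.Adj x y → G.Reachable (f x) (f y)) {x y : α} (hxy : H.Reachable x y) :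
    G.Reachable (f x) (f y) := by
  obtain ⟨p⟩ := hxy
  induction p with
  | nil => exact SimpleGraph.Reachable.refl _
  | cons hadj _ ih => exact (h _ _ hadj).trans ih

/-- in `A ⊔ B`, a walk to a point of `S` can be cut at the first point of `S`; before it only
edges of `A'` are needed -/
lemma reach_first {α : Type*} {H H' : SimpleGraph α} (S : α → Prop)
    (h : ∀ x y, H.Adj x y → ¬ S x → H'.Adj x y) {x y : α} (hxy : H.Reachable x y) (hy : S y) :
    ∃ p, S p ∧ H'.Reachable x p := by
  obtain ⟨p⟩ := hxy
  induction p with
  | nil => exact ⟨_, hy, SimpleGraph.Reachable.refl _⟩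
  | @cons u v w hadj _ ih =>
    by_cases hu : S u
    · exact ⟨u, hu, SimpleGraph.Reachable.refl _⟩
    · obtain ⟨q, hq, hr⟩ := ih hy
      exact ⟨q, hq, (h _ _ hadj hu).reachable.trans hr⟩

/-! ### parity -/

lemma even_terminals {α : Type*} (K : Finset α) (f : α → ℕ) (h2 : ∀ x, f x ≤ 2)
    (he : Even (∑ x ∈ K, f x)) : Even (K.filter (fun x => f x = 1)).card := by
  classical
  have h : ∑ x ∈ K, f x =
      (K.filter (fun x => f x = 1)).card + 2 * (K.filter (fun x => f x = 2)).card := by
    rw [Finset.card_filter, Finset.card_filter, Finset.mul_sum, ← Finset.sum_add_distrib]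
    apply Finset.sum_congr rfl
    intro x _
    have := h2 x
    interval_cases hx : f x <;> simp
  rw [h] at he
  rw [Nat.even_add] at he
  exact he.mpr (even_two_mul _)

open Classical in
lemma ports_even {i : Fin (n + 1)} {b : Bool} {ω : V (n + 1) → ℕ} {σ : V (n + 1) → V (n + 1)}
    (hσ : IsPairing ω σ) (h2 : ∀ z, ω z ≤ 2) (K : Finset (V n))
    (hK : ∀ x ∈ K, ¬ port i b σ x → crs i b σ x ∈ K)
    (he : Even (∑ x ∈ K, half i b ω x)) :
    Even (K.filter (fun x => port i b σ x)).card := by
  have h1 := even_terminals K (half i b ω) (fun x => h2 _) he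
  set T := K.filter (fun x => half i b ω x = 1) with hT
  have hcard := Finset.card_filter_add_card_filter_not (s := T) (fun x => port i b σ x)
  have hA : T.filter (fun x => port i b σ x) = K.filter (fun x => port i b σ x) := by
    ext x
    simp only [hT, Finset.mem_filter]
    constructor
    · rintro ⟨⟨h, _⟩, h'⟩
      exact ⟨h, h'⟩
    · rintro ⟨h, h'⟩
      exact ⟨⟨h, port_terminal hσ h'⟩, h'⟩
  have hB : Even (T.filter (fun x => ¬ port i b σ x)).card := by
    apply even_card_of_involution _ (crs i b σ)
    intro x hx
    simp only [hT, Finset.mem_filter] at hx ⊢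
    obtain ⟨⟨hxK, hx1⟩, hxp⟩ := hx
    have h3 := nonport_crs hσ hxp
    have hne : crs i b σ x ≠ x := (nonport_ne_iff hσ hxp).mpr hx1
    refine ⟨⟨⟨hK x hxK hxp, ?_⟩, h3.1⟩, hne, h3.2⟩
    rw [← nonport_ne_iff hσ h3.1, h3.2]
    exact hne.symm
  rw [hA] at hcard
  rw [← hcard, Nat.even_add] at h1
  exact h1.mpr hB

/-! ### the theorem -/

lemma pairG_adj {α : V n → V n} {x y : V n} :
    (pairG α).Adj x y ↔ x ≠ y ∧ (α x = y ∨ α y = x) := by
  simp only [pairG, SimpleGraph.fromRel_adj]

/-- If both halves in direction `i` are good, the total weight of one half is even and some pair of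
`σ` crosses the direction `i`, then `(ω, σ)` is solved by some `M` without edges of direction
`i`. -/
theorem split_solved (i : Fin (n + 1)) {ω : V (n + 1) → ℕ} {σ : V (n + 1) → V (n + 1)}
    (hσ : IsPairing ω σ) (h2 : ∀ z, ω z ≤ 2)
    (h0 : Good (half i false ω)) (h1 : Good (half i true ω))
    (he : Even (∑ x, half i false ω x))
    (hx : ∃ x, σ x i ≠ x i) :
    ∃ M, SolvedBy M ω σ ∧ ∀ x : V n, ¬ M.Adj (ins i false x) (ins i true x) := by
  classical
  -- a port in each half
  have hq : ∃ q, port i true σ q := by
    obtain ⟨z, hz⟩ := hx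
    obtain ⟨x, hzx⟩ := exists_ins i z
    cases hzi : z i with
    | true =>
      rw [hzi] at hzx hz
      exact ⟨x, by unfold port; rw [← hzx]; exact hz⟩
    | false =>
      rw [hzi] at hzx hz
      have hp : port i false σ x := by unfold port; rw [← hzx]; exact hz
      exact ⟨_, (port_crs hσ hp).1⟩
  obtain ⟨q, hq⟩ := hq
  have hp0 : port i false σ (crs i true σ q) := (port_crs hσ hq).1
  set p0 := crs i true σ q with hp0def
  -- first pairing of the ports
  have hev : Even (Finset.univ.filter (fun x : V n => port i false σ x)).card :=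
    ports_even hσ h2 Finset.univ (fun _ _ _ => Finset.mem_univ _) he
  obtain ⟨ρ, hρ, -⟩ := exists_pairing _ hev
  have hσ0 : IsPairing (half i false ω) (halfPair i false σ ρ) := by
    apply isPairing_halfPair hσ
    intro x hx
    have := hρ x (by simpa using hx)
    exact ⟨by simpa using this.1, this.2.1, this.2.2⟩
  obtain ⟨M0, hM0⟩ := h0 _ hσ0
  -- the graph of the half `false` without the port pairs
  set H0 : SimpleGraph (V n) :=
    M0 ⊔ SimpleGraph.fromRel (fun x y => σ (ins i false x) = ins i false y) with hH0
  have hH0adj : ∀ x y, H0.Adj x y ↔ M0.Adj x y ∨ (x ≠ y ∧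
      (σ (ins i false x) = ins i false y ∨ σ (ins i false y) = ins i false x)) := by
    intro x y
    rw [hH0, SimpleGraph.sup_adj, SimpleGraph.fromRel_adj]
  -- parity of the ports in the components of `H0`
  have hclass : ∀ x ∈ Finset.univ.filter (fun x : V n => port i false σ x),
      Even ((Finset.univ.filter (fun x : V n => port i false σ x)).filter
        (fun y => H0.Reachable x y)).card := by
    intro x _
    have hK : ∀ y ∈ Finset.univ.filter (fun y => H0.Reachable x y), ∀ z, H0.Adj y z →
        z ∈ Finset.univ.filter (fun y => H0.Reachable x y) := by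
      intro y hy z hyz
      simp only [Finset.mem_filter, Finset.mem_univ, true_and] at hy ⊢
      exact hy.trans hyz.reachable
    have h3 : Even (∑ y ∈ Finset.univ.filter (fun y => H0.Reachable x y), half i false ω y) := by
      apply even_sum_closed M0 (half i false ω) hM0.deg
      intro y hy z hyz
      exact hK y hy z ((hH0adj y z).mpr (Or.inl hyz))
    have h4 := ports_even (i := i) (b := false) hσ h2
      (Finset.univ.filter (fun y => H0.Reachable x y)) (by
        intro y hy hyp
        by_cases hne : crs i false σ y = y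
        · rw [hne]; exact hy
        · apply hK y hy
          rw [hH0adj]
          exact Or.inr ⟨fun h => hne h.symm, Or.inl (sig_nonport hyp)⟩) h3
    have h5 : (Finset.univ.filter (fun y => H0.Reachable x y)).filter
        (fun y => port i false σ y) =
        (Finset.univ.filter (fun x : V n => port i false σ x)).filter
        (fun y => H0.Reachable x y) := by
      ext y
      simp only [Finset.mem_filter, Finset.mem_univ, true_and]
      exact and_comm
    rw [← h5]
    exact h4
  obtain ⟨π, hπ, -⟩ := exists_pairing_in_classes (fun x y => H0.Reachable x y)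
    ⟨fun x => SimpleGraph.Reachable.refl x, fun h => h.symm, fun h h' => h.trans h'⟩ _ hclass
  have hπ' : ∀ x, port i false σ x →
      port i false σ (π x) ∧ π x ≠ x ∧ π (π x) = x ∧ H0.Reachable x (π x) := by
    intro x hx
    have := hπ x (by simpa using hx)
    exact ⟨by simpa using this.1, this.2.1, this.2.2.1, this.2.2.2⟩
  -- the second half
  have hσ1 : IsPairing (half i true ω)
      (halfPair i true σ (fun y => crs i false σ (π (crs i true σ y)))) := by
    apply isPairing_halfPair hσ
    intro y hy
    obtain ⟨ha, hb⟩ := port_crs hσ hy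
    simp only [Bool.not_true] at ha hb
    obtain ⟨hc, hd, he', hf⟩ := hπ' _ ha
    obtain ⟨hg, hh⟩ := port_crs hσ hc
    simp only [Bool.not_false] at hg hh
    refine ⟨hg, ?_, ?_⟩
    · intro heq
      apply hd
      have : crs i true σ (crs i false σ (π (crs i true σ y))) = crs i true σ y := by
        exact congrArg (crs i true σ) heq
      rw [hh] at this
      exact this
    · show crs i false σ (π (crs i true σ (crs i false σ (π (crs i true σ y))))) = y
      rw [hh, he', hb]
  obtain ⟨M1, hM1⟩ := h1 _ hσ1
  set N : Bool → SimpleGraph (V n) := fun b => cond b M1 M0 with hN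
  have hNf : N false = M0 := rfl
  have hNt : N true = M1 := rfl
  set G := glue i N ⊔ pairG σ with hG
  have hGσ : ∀ z, G.Reachable z (σ z) := by
    intro z
    by_cases hz : z = σ z
    · rw [← hz]
    · apply SimpleGraph.Adj.reachable
      rw [hG, SimpleGraph.sup_adj]
      exact Or.inr (pairG_adj.mpr ⟨hz, Or.inl rfl⟩)
  have hGN : ∀ b x y, (N b).Adj x y → G.Reachable (ins i b x) (ins i b y) := by
    intro b x y hxy
    apply SimpleGraph.Adj.reachable
    rw [hG, SimpleGraph.sup_adj]
    exact Or.inl (glue_adj.mpr ⟨rfl, hxy⟩)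
  have hGH0 : ∀ x y, H0.Reachable x y → G.Reachable (ins i false x) (ins i false y) := by
    intro x y hxy
    refine reach_map (ins i false) ?_ hxy
    intro x y hxy
    rw [hH0adj] at hxy
    rcases hxy with h | ⟨_, h | h⟩
    · exact hGN false x y h
    · rw [← h]; exact hGσ _
    · rw [← h]; exact (hGσ _).symm
  -- the steps of the second half
  have hstep : ∀ y, G.Reachable (ins i true y)
      (ins i true (halfPair i true σ (fun y => crs i false σ (π (crs i true σ y))) y)) := by
    intro y
    by_cases hy : port i true σ y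
    · rw [halfPair_port hy]
      obtain ⟨ha, -⟩ := port_crs hσ hy
      simp only [Bool.not_true] at ha
      obtain ⟨hc, -, -, hf⟩ := hπ' _ ha
      have s1 : σ (ins i true y) = ins i false (crs i true σ y) := sig_port hy
      have s2 : σ (ins i false (π (crs i true σ y))) =
          ins i true (crs i false σ (π (crs i true σ y))) := sig_port hc
      have r1 : G.Reachable (ins i true y) (ins i false (crs i true σ y)) := by
        rw [← s1]; exact hGσ _
      have r2 := hGH0 _ _ hf
      have r3 : G.Reachable (ins i false (π (crs i true σ y)))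
          (ins i true (crs i false σ (π (crs i true σ y)))) := by
        rw [← s2]; exact hGσ _
      exact r1.trans (r2.trans r3)
    · rw [halfPair_nonport hy, ← sig_nonport hy]
      exact hGσ _
  have hG1 : ∀ x y, (M1 ⊔ pairG (halfPair i true σ
      (fun y => crs i false σ (π (crs i true σ y))))).Reachable x y →
      G.Reachable (ins i true x) (ins i true y) := by
    intro x y hxy
    refine reach_map (ins i true) ?_ hxy
    intro x y hxy
    rw [SimpleGraph.sup_adj, pairG_adj] at hxy
    rcases hxy with h | ⟨_, h | h⟩
    · exact hGN true x y h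
    · rw [← h]; exact hstep _
    · rw [← h]; exact (hstep _).symm
  -- everything reaches `ins i true q`
  have hq1 : half i true ω q ≤ 1 := (port_terminal hσ hq).le
  have hto1 : ∀ y, half i true ω y ≤ 1 → G.Reachable (ins i true y) (ins i true q) := by
    intro y hy
    exact hG1 _ _ (hM1.conn y q hy hq1)
  have hto0 : ∀ x, half i false ω x ≤ 1 → G.Reachable (ins i false x) (ins i true q) := by
    intro x hx
    have hr := hM0.conn x p0 hx (port_terminal hσ hp0).le
    obtain ⟨p, hp, hpr⟩ := reach_first (H' := H0) (port i false σ) (by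
      intro u v huv hu
      rw [SimpleGraph.sup_adj, pairG_adj] at huv
      rw [hH0adj]
      rcases huv with h | ⟨hne, h⟩
      · exact Or.inl h
      · refine Or.inr ⟨hne, Or.inl ?_⟩
        have huv' : halfPair i false σ ρ u = v := by
          rcases h with h | h
          · exact h
          · rw [← h, hσ0.inv]
        rw [halfPair_nonport hu] at huv'
        rw [sig_nonport hu, huv']) hr hp0
    have r1 := hGH0 _ _ hpr
    have s1 : σ (ins i false p) = ins i true (crs i false σ p) := sig_port hp
    have r2 : G.Reachable (ins i false p) (ins i true (crs i false σ p)) := by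
      rw [← s1]; exact hGσ _
    exact r1.trans (r2.trans (hto1 _ (port_terminal hσ (port_crs hσ hp).1).le))
  have hto : ∀ z, ω z ≤ 1 → G.Reachable z (ins i true q) := by
    intro z hz
    obtain ⟨x, hzx⟩ := exists_ins i z
    cases hzi : z i with
    | true =>
      rw [hzi] at hzx
      rw [hzx] at hz ⊢
      exact hto1 x hz
    | false =>
      rw [hzi] at hzx
      rw [hzx] at hz ⊢
      exact hto0 x hz
  refine ⟨glue i N, ⟨?_, ?_, ?_⟩, ?_⟩
  · apply glue_le
    intro b
    cases b
    · exact hM0.le
    · exact hM1.le
  · intro z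
    obtain ⟨x, hzx⟩ := exists_ins i z
    rw [hzx, glue_ncard]
    cases z i
    · exact hM0.deg x
    · exact hM1.deg x
  · intro z w hz hw
    exact (hto z hz).trans (hto w hw).symm
  · intro x hadj
    rw [glue_adj] at hadj
    exact absurd hadj.1 (by simp)

end Pool.Agent.Locke
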