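import Pool.Agent.Lib.MP_8a5648_co.Mg.G001

/-! The trick for the case without crossing pairs. -/

namespace Pool.Agent.Locke

variable {n : ℕ}

namespace TrickAux

lemma eq_not_of_ne {a b : Bool} (h : ¬ a = b) : a = !b := by
  cases a <;> cases b <;> simp_all

/-- the coordinates of a vertex other than `i` -/
def res (i : Fin (n + 1)) (z : V (n + 1)) : V n := fun j => z (i.succAbove j)

lemma res_ins (i : Fin (n + 1)) (c : Bool) (x : V n) : res i (ins i c x) = x :=
  funext fun j => ins_succAbove i j c x

lemma ins_res (i : Fin (n + 1)) (z : V (n + 1)) : ins i (z i) (res i z) = z := by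
  obtain ⟨x, hx⟩ := exists_ins i z
  have h : res i z = x := by
    rw [hx]
    exact res_ins i _ x
  rw [h]
  exact hx.symm

/-- gluing two graphs along direction `i`, with the edges of direction `i` at the points of `C` -/
def glue (i : Fin (n + 1)) (A : Bool → SimpleGraph (V n)) (C : Set (V n)) :
    SimpleGraph (V (n + 1)) where
  Adj u v := (u i = v i ∧ (A (u i)).Adj (res i u) (res i v)) ∨
    (u i ≠ v i ∧ res i u = res i v ∧ res i u ∈ C)
  symm := ⟨by
    rintro u v (⟨h1, h2⟩ | ⟨h1, h2, h3⟩)
    · exact Or.inl ⟨h1.symm, by rw [← h1]; exact h2.symm⟩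
    · exact Or.inr ⟨fun h => h1 h.symm, h2.symm, h2 ▸ h3⟩⟩
  loopless := ⟨by
    rintro u (⟨_, h2⟩ | ⟨h1, _, _⟩)
    · exact h2.ne rfl
    · exact h1 rfl⟩

lemma glue_adj_same (i : Fin (n + 1)) (A : Bool → SimpleGraph (V n)) (C : Set (V n)) (c : Bool)
    (x y : V n) : (glue i A C).Adj (ins i c x) (ins i c y) ↔ (A c).Adj x y := by
  simp only [glue, res_ins, ins_apply_self]
  simp

lemma glue_adj_ne (i : Fin (n + 1)) (A : Bool → SimpleGraph (V n)) (C : Set (V n)) (c : Bool)
    (x y : V n) : (glue i A C).Adj (ins i c x) (ins i (!c) y) ↔ x = y ∧ x ∈ C := by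
  simp only [glue, res_ins, ins_apply_self]
  cases c <;> simp

lemma glue_deg (i : Fin (n + 1)) (A : Bool → SimpleGraph (V n)) (C : Set (V n))
    [DecidablePred (· ∈ C)] (c : Bool) (x : V n) :
    ((glue i A C).neighborSet (ins i c x)).ncard =
      ((A c).neighborSet x).ncard + (if x ∈ C then 1 else 0) := by
  have hinj : Function.Injective (ins i c) := fun u v h => (ins_inj.1 h).2
  have e : (glue i A C).neighborSet (ins i c x) =
      (ins i c '' (A c).neighborSet x) ∪ (if x ∈ C then {ins i (!c) x} else ∅) := by
    ext w
    rw [SimpleGraph.mem_neighborSet]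
    obtain ⟨y, hy⟩ := exists_ins i w
    by_cases hc : w i = c
    · rw [hc] at hy
      subst hy
      rw [glue_adj_same]
      constructor
      · intro h
        exact Or.inl ⟨y, h, rfl⟩
      · rintro (⟨y', h, h'⟩ | h)
        · rw [hinj h'] at h
          exact h
        · exfalso
          split_ifs at h with hx
          · have := (ins_inj.1 h).1
            cases c <;> simp at this
          · exact h
    · have hc' : w i = !c := by
        cases c <;> cases h : w i <;> simp_all
      rw [hc'] at hy
      subst hy
      rw [glue_adj_ne]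
      constructor
      · rintro ⟨rfl, h⟩
        refine Or.inr ?_
        rw [if_pos h]
        rfl
      · rintro (⟨y', _, h'⟩ | h)
        · exfalso
          have := (ins_inj.1 h').1
          cases c <;> simp at this
        · split_ifs at h with hx
          · have := (ins_inj.1 h).2
            exact ⟨this.symm, hx⟩
          · exact absurd h (Set.notMem_empty _)
  rw [e, Set.ncard_union_eq]
  · rw [Set.ncard_image_of_injective _ hinj]
    congr 1
    split_ifs <;> simp
  · rw [Set.disjoint_left]
    rintro w ⟨y', _, rfl⟩ h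
    split_ifs at h with hx
    · have := (ins_inj.1 h).1
      cases c <;> simp at this
    · exact h

/-- a relation included in reachability gives reachability -/
lemma reach_of_adj {α β : Type*} {G : SimpleGraph α} {H : SimpleGraph β} (f : α → β)
    (h : ∀ u v, G.Adj u v → H.Reachable (f u) (f v)) {u v : α} (huv : G.Reachable u v) :
    H.Reachable (f u) (f v) := by
  obtain ⟨p⟩ := huv
  induction p with
  | nil => exact SimpleGraph.Reachable.refl _
  | cons hadj _ ih => exact (h _ _ hadj).trans ih

lemma pairG_adj {σ : V n → V n} {u v : V n} :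
    (pairG σ).Adj u v ↔ u ≠ v ∧ (σ u = v ∨ σ v = u) := by
  simp [pairG, SimpleGraph.fromRel_adj]

/-- the sum of the weights over a set closed under the pairing is even -/
lemma even_sum_paired {ω : V n → ℕ} {σ : V n → V n} (hσ : IsPairing ω σ) (hω : ∀ x, ω x ≤ 2)
    (K : Finset (V n)) (hK : ∀ x ∈ K, σ x ∈ K) : Even (∑ x ∈ K, ω x) := by
  have h1 : Even (K.filter (fun x => ω x = 1)).card := by
    refine even_card_of_involution _ σ ?_
    intro x hx
    rw [Finset.mem_filter] at hx
    have hne : σ x ≠ x := (hσ.ne_iff x).2 hx.2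
    refine ⟨Finset.mem_filter.2 ⟨hK x hx.1, ?_⟩, hne, hσ.inv x⟩
    rw [← hσ.ne_iff, hσ.inv]
    exact hne.symm
  have h2 : ∑ x ∈ K, ω x = (K.filter (fun x => ω x = 1)).card +
      2 * (K.filter (fun x => ω x = 2)).card := by
    rw [Finset.card_filter, Finset.card_filter, Finset.mul_sum, ← Finset.sum_add_distrib]
    refine Finset.sum_congr rfl ?_
    intro x _
    have := hω x
    split_ifs <;> omega
  rw [h2]
  exact h1.add (even_two_mul _)

/-- the restriction of `σ` to a half -/
def sres (i : Fin (n + 1)) (c : Bool) (σ : V (n + 1) → V (n + 1)) : V n → V n :=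
  fun x => res i (σ (ins i c x))

lemma ins_sres {i : Fin (n + 1)} {c : Bool} {σ : V (n + 1) → V (n + 1)} {x : V n}
    (hx : σ (ins i c x) i = c) : ins i c (sres i c σ x) = σ (ins i c x) := by
  have := ins_res i (σ (ins i c x))
  rw [hx] at this
  exact this

lemma isPairing_sres {i : Fin (n + 1)} (c : Bool) {ω : V (n + 1) → ℕ}
    {σ : V (n + 1) → V (n + 1)} (hσ : IsPairing ω σ) (hx : ∀ x, σ x i = x i) :
    IsPairing (half i c ω) (sres i c σ) := by
  have h : ∀ x, ins i c (sres i c σ x) = σ (ins i c x) := fun x =>
    ins_sres (by rw [hx, ins_apply_self])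
  constructor
  · intro x
    have : ins i c (sres i c σ (sres i c σ x)) = ins i c x := by
      rw [h, h, hσ.inv]
    exact (ins_inj.1 this).2
  · intro x
    have h1 : sres i c σ x ≠ x ↔ σ (ins i c x) ≠ ins i c x := by
      rw [← h x, ne_eq, ne_eq, not_iff_not]
      constructor
      · intro e
        rw [e]
      · intro e
        exact (ins_inj.1 e).2
    rw [h1, hσ.ne_iff]
    rfl

/-- delete one edge -/
def del (M : SimpleGraph (V n)) (y z : V n) : SimpleGraph (V n) where
  Adj u v := M.Adj u v ∧ ¬ (u = y ∧ v = z) ∧ ¬ (u = z ∧ v = y)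
  symm := ⟨by
    rintro u v ⟨h1, h2, h3⟩
    exact ⟨h1.symm, fun h => h3 ⟨h.2, h.1⟩, fun h => h2 ⟨h.2, h.1⟩⟩⟩
  loopless := ⟨fun u h => h.1.ne rfl⟩

lemma del_deg {M : SimpleGraph (V n)} {y z : V n} (h : M.Adj y z) (x : V n) :
    ((del M y z).neighborSet x).ncard + (if x = y then 1 else 0) + (if x = z then 1 else 0) =
      (M.neighborSet x).ncard := by
  have hyz : y ≠ z := h.ne
  by_cases hxy : x = y
  · subst hxy
    have e : (del M x z).neighborSet x = M.neighborSet x \ {z} := by
      ext w
      simp only [SimpleGraph.mem_neighborSet, del, Set.mem_sdiff, Set.mem_singleton_iff]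
      constructor
      · rintro ⟨h1, h2, _⟩
        exact ⟨h1, fun h => h2 ⟨trivial, h⟩⟩
      · rintro ⟨h1, h2⟩
        exact ⟨h1, fun h => h2 h.2, fun h => hyz h.1⟩
    rw [e, if_pos rfl, if_neg hyz]
    exact Set.ncard_sdiff_singleton_add_one h
  · by_cases hxz : x = z
    · subst hxz
      have e : (del M y x).neighborSet x = M.neighborSet x \ {y} := by
        ext w
        simp only [SimpleGraph.mem_neighborSet, del, Set.mem_sdiff, Set.mem_singleton_iff]
        constructor
        · rintro ⟨h1, _, h3⟩
          exact ⟨h1, fun h => h3 ⟨trivial, h⟩⟩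
        · rintro ⟨h1, h2⟩
          exact ⟨h1, fun h => hxy h.1, fun h => h2 h.2⟩
      rw [e, if_neg hxy, if_pos rfl, add_zero]
      exact Set.ncard_sdiff_singleton_add_one h.symm
    · have e : (del M y z).neighborSet x = M.neighborSet x := by
        ext w
        simp only [SimpleGraph.mem_neighborSet, del]
        constructor
        · rintro ⟨h1, _, _⟩
          exact h1
        · intro h1
          exact ⟨h1, fun h => hxy h.1, fun h => hxz h.1⟩
      rw [e, if_neg hxy, if_neg hxz, add_zero, add_zero]

/-- the counting step: some edge has both ends outside `P` -/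
lemma exists_edge (M : SimpleGraph (V n)) (f p : V n → ℕ)
    (hdeg : ∀ x, (M.neighborSet x).ncard + f x = 2)
    (hcount : 2 * (2 * (Finset.univ.filter (fun x : V n => 0 < p x)).card) +
      ∑ x, f x < 2 * 2 ^ n) : ∃ y z, M.Adj y z ∧ p y = 0 ∧ p z = 0 := by
  classical
  by_contra hcon
  push Not at hcon
  set S := (Finset.univ : Finset (V n × V n)).filter (fun q => M.Adj q.1 q.2) with hS
  set P := Finset.univ.filter (fun x : V n => 0 < p x) with hP
  have key : ∀ T : Finset (V n), (S.filter (fun q => q.1 ∈ T)).card =
      ∑ x ∈ T, (M.neighborSet x).ncard := by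
    intro T
    have e : S.filter (fun q => q.1 ∈ T) = (T ×ˢ Finset.univ).filter (fun q => M.Adj q.1 q.2) := by
      ext q
      simp only [hS, Finset.mem_filter, Finset.mem_univ, true_and, Finset.mem_product, and_true]
      tauto
    rw [e, Finset.card_filter, Finset.sum_product]
    refine Finset.sum_congr rfl ?_
    intro x _
    rw [← Finset.card_filter, ← Set.ncard_coe_finset]
    congr 1
    ext y
    simp
  have h1 : S.card = ∑ x, (M.neighborSet x).ncard := by
    rw [← key Finset.univ]
    congr 1
    ext q
    simp
  have h2 : ∑ x, (M.neighborSet x).ncard + ∑ x, f x = 2 * 2 ^ n := by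
    rw [← Finset.sum_add_distrib, Finset.sum_congr rfl (fun x _ => hdeg x)]
    simp [mul_comm]
  have h3 : (S.filter (fun q => q.1 ∈ P)).card ≤ 2 * P.card := by
    rw [key P, mul_comm, ← smul_eq_mul, ← Finset.sum_const]
    refine Finset.sum_le_sum ?_
    intro x _
    have := hdeg x
    omega
  have h4 : (S.filter (fun q => q.2 ∈ P)).card = (S.filter (fun q => q.1 ∈ P)).card := by
    refine Finset.card_bij (fun q _ => q.swap) ?_ ?_ ?_
    · rintro ⟨a, c⟩ h
      simp only [hS, Finset.mem_filter, Finset.mem_univ, true_and, Prod.swap] at h ⊢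
      exact ⟨h.1.symm, h.2⟩
    · intro q _ q' _ h
      exact Prod.swap_injective h
    · rintro ⟨a, c⟩ h
      simp only [hS, Finset.mem_filter, Finset.mem_univ, true_and] at h
      refine ⟨(c, a), ?_, rfl⟩
      simp only [hS, Finset.mem_filter, Finset.mem_univ, true_and]
      exact ⟨h.1.symm, h.2⟩
  have h5 : S ⊆ S.filter (fun q => q.1 ∈ P) ∪ S.filter (fun q => q.2 ∈ P) := by
    rintro ⟨a, c⟩ h
    have hadj : M.Adj a c := by
      simpa [hS] using h
    rw [Finset.mem_union]
    by_cases ha : p a = 0
    · right
      refine Finset.mem_filter.2 ⟨h, ?_⟩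
      have := hcon a c hadj ha
      simp only [hP, Finset.mem_filter, Finset.mem_univ, true_and]
      omega
    · left
      refine Finset.mem_filter.2 ⟨h, ?_⟩
      simp only [hP, Finset.mem_filter, Finset.mem_univ, true_and]
      omega
  have h6 := (Finset.card_le_card h5).trans (Finset.card_union_le _ _)
  omega

end TrickAux

open TrickAux

/-- No pair crosses direction `i`.  The half `b` is good; in every solution of the half `b` some
edge `yz` has both partners in the other half of weight 0 (by counting), and the other half with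
weight raised at `y` and `z` is good. -/
theorem trick_solved (i : Fin (n + 1)) (b : Bool) {ω : V (n + 1) → ℕ}
    {σ : V (n + 1) → V (n + 1)} (hσ : IsPairing ω σ)
    (hb : Good (half i b ω))
    (hT : ∀ y z : V n, (Q n).Adj y z → half i (!b) ω y = 0 → half i (!b) ω z = 0 →
      Good (fun x => half i (!b) ω x + (if x = y then 1 else 0) + (if x = z then 1 else 0)))
    (hcount : 2 * (2 * (Finset.univ.filter (fun x : V n => 0 < half i (!b) ω x)).card) +
      ∑ x, half i b ω x < 2 * 2 ^ n)
    (hx : ∀ x, σ x i = x i) :
    ∃ M, SolvedBy M ω σ := by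
  classical
  have hp0 := isPairing_sres b hσ hx
  have hp1 := isPairing_sres (!b) hσ hx
  set s0 := sres i b σ with hs0
  set s1 := sres i (!b) σ with hs1
  have e0 : ∀ x, ins i b (s0 x) = σ (ins i b x) := fun x =>
    ins_sres (by rw [hx, ins_apply_self])
  have e1 : ∀ x, ins i (!b) (s1 x) = σ (ins i (!b) x) := fun x =>
    ins_sres (by rw [hx, ins_apply_self])
  obtain ⟨M0, hM0⟩ := hb s0 hp0
  obtain ⟨y, z, hyz, hy, hz⟩ := exists_edge M0 (half i b ω) (half i (!b) ω) hM0.deg hcount
  have hne : y ≠ z := hyz.ne
  -- degrees after deleting the edge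
  have hdel : ∀ x, ((del M0 y z).neighborSet x).ncard +
      (half i b ω x + (if x = y then 1 else 0) + (if x = z then 1 else 0)) = 2 := by
    intro x
    have h1 := del_deg hyz x
    have h2 := hM0.deg x
    omega
  have hω0 : ∀ x, half i b ω x ≤ 2 := fun x => by
    have := hM0.deg x
    omega
  set H0 := del M0 y z ⊔ pairG s0 with hH0
  -- y and z are connected in H0
  have hreach : H0.Reachable y z := by
    by_contra hnot
    set K := Finset.univ.filter (fun x : V n => H0.Reachable y x) with hK
    have hmem : ∀ x, x ∈ K ↔ H0.Reachable y x := by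
      intro x
      simp [hK]
    have hyK : y ∈ K := (hmem y).2 (SimpleGraph.Reachable.refl _)
    have hzK : z ∉ K := fun h => hnot ((hmem z).1 h)
    have h1 : Even (∑ x ∈ K, (half i b ω x + (if x = y then 1 else 0) +
        (if x = z then 1 else 0))) := by
      refine even_sum_closed (del M0 y z) _ hdel K ?_
      intro x hxK w hw
      rw [hmem] at hxK ⊢
      exact hxK.trans (SimpleGraph.Adj.reachable (Or.inl hw))
    have h2 : Even (∑ x ∈ K, half i b ω x) := by
      refine even_sum_paired hp0 hω0 K ?_
      intro x hxK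
      rw [hmem] at hxK ⊢
      by_cases hxx : s0 x = x
      · rw [hxx]
        exact hxK
      · refine hxK.trans (SimpleGraph.Adj.reachable (Or.inr ?_))
        rw [pairG_adj]
        exact ⟨fun h => hxx h.symm, Or.inl rfl⟩
    rw [Finset.sum_add_distrib, Finset.sum_add_distrib, Finset.sum_ite_eq' K y,
      Finset.sum_ite_eq' K z, if_pos hyK, if_neg hzK] at h1
    rcases h1 with ⟨k, hk⟩
    rcases h2 with ⟨l, hl⟩
    omega
  have hconn0 : ∀ u v, half i b ω u ≤ 1 → half i b ω v ≤ 1 → H0.Reachable u v := by
    intro u v hu hv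
    refine reach_of_adj (G := M0 ⊔ pairG s0) id ?_ (hM0.conn u v hu hv)
    intro u v huv
    show H0.Reachable u v
    rcases huv with huv | huv
    · by_cases h1 : u = y ∧ v = z
      · rw [h1.1, h1.2]
        exact hreach
      · by_cases h2 : u = z ∧ v = y
        · rw [h2.1, h2.2]
          exact hreach.symm
        · exact SimpleGraph.Adj.reachable (Or.inl ⟨huv, h1, h2⟩)
    · exact SimpleGraph.Adj.reachable (Or.inr huv)
  -- the other half
  have hsy : s1 y = y := by
    by_contra h
    have := (hp1.ne_iff y).1 h
    omega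
  have hsz : s1 z = z := by
    by_contra h
    have := (hp1.ne_iff z).1 h
    omega
  set t1 : V n → V n := fun x => if x = y then z else if x = z then y else s1 x with ht1
  have ty : t1 y = z := by simp [ht1]
  have tz : t1 z = y := by simp [ht1, hne.symm]
  have toth : ∀ x, x ≠ y → x ≠ z → t1 x = s1 x := by
    intro x h1 h2
    simp [ht1, h1, h2]
  have hpt : IsPairing (fun x => half i (!b) ω x + (if x = y then 1 else 0) +
      (if x = z then 1 else 0)) t1 := by
    constructor
    · intro x
      by_cases h1 : x = y
      · rw [h1, ty, tz]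
      · by_cases h2 : x = z
        · rw [h2, tz, ty]
        · rw [toth x h1 h2, toth, hp1.inv]
          · intro h
            apply h1
            rw [← hp1.inv x, h, hsy]
          · intro h
            apply h2
            rw [← hp1.inv x, h, hsz]
    · intro x
      by_cases h1 : x = y
      · rw [h1, ty]
        simp only [if_pos, if_neg hne, hy]
        simp [hne.symm]
      · by_cases h2 : x = z
        · rw [h2, tz]
          simp only [if_pos, if_neg hne.symm, hz]
          simp [hne]
        · rw [toth x h1 h2]
          simp only [if_neg h1, if_neg h2, add_zero]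
          exact hp1.ne_iff x
  obtain ⟨M1, hM1⟩ := hT y z (hM0.le hyz) hy hz t1 hpt
  -- the glued graph
  set A : Bool → SimpleGraph (V n) := fun c => if c = b then del M0 y z else M1 with hA
  have hAb : A b = del M0 y z := by simp [hA]
  have hAb' : A (!b) = M1 := by
    have : (!b) ≠ b := by cases b <;> simp
    simp [hA]
  set M := glue i A {x | x = y ∨ x = z} with hM
  set G := M ⊔ pairG σ with hG
  have hmemC : ∀ x, x ∈ ({x | x = y ∨ x = z} : Set (V n)) ↔ x = y ∨ x = z := fun x => Iff.rfl
  -- connecting edges
  have g0 : ∀ u v, H0.Reachable u v → G.Reachable (ins i b u) (ins i b v) := by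
    intro u v huv
    refine reach_of_adj (ins i b) ?_ huv
    rintro u v (h | h)
    · refine SimpleGraph.Adj.reachable (Or.inl ?_)
      rw [hM, glue_adj_same, hAb]
      exact h
    · refine SimpleGraph.Adj.reachable (Or.inr ?_)
      rw [pairG_adj] at h ⊢
      refine ⟨fun h' => h.1 (ins_inj.1 h').2, ?_⟩
      rcases h.2 with h2 | h2
      · left
        rw [← e0, h2]
      · right
        rw [← e0, h2]
  have gy : G.Reachable (ins i b y) (ins i (!b) y) := by
    refine SimpleGraph.Adj.reachable (Or.inl ?_)
    rw [hM, glue_adj_ne]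
    exact ⟨rfl, Or.inl rfl⟩
  have gz : G.Reachable (ins i b z) (ins i (!b) z) := by
    refine SimpleGraph.Adj.reachable (Or.inl ?_)
    rw [hM, glue_adj_ne]
    exact ⟨rfl, Or.inr rfl⟩
  have gyz : G.Reachable (ins i (!b) y) (ins i (!b) z) :=
    (gy.symm.trans (g0 y z hreach)).trans gz
  have g1 : ∀ u v, (M1 ⊔ pairG t1).Reachable u v →
      G.Reachable (ins i (!b) u) (ins i (!b) v) := by
    intro u v huv
    refine reach_of_adj (ins i (!b)) ?_ huv
    rintro u v (h | h)
    · refine SimpleGraph.Adj.reachable (Or.inl ?_)
      rw [hM, glue_adj_same, hAb']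
      exact h
    · rw [pairG_adj] at h
      have aux : ∀ u v, u ≠ v → t1 u = v → G.Reachable (ins i (!b) u) (ins i (!b) v) := by
        intro u v huv ht
        by_cases h1 : u = y
        · rw [h1, ty] at ht
          rw [h1, ← ht]
          exact gyz
        · by_cases h2 : u = z
          · rw [h2, tz] at ht
            rw [h2, ← ht]
            exact gyz.symm
          · rw [toth u h1 h2] at ht
            refine SimpleGraph.Adj.reachable (Or.inr ?_)
            rw [pairG_adj]
            refine ⟨fun h' => huv (ins_inj.1 h').2, Or.inl ?_⟩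
            rw [← e1, ht]
      rcases h.2 with h2 | h2
      · exact aux u v h.1 h2
      · exact (aux v u h.1.symm h2).symm
  have hyh : half i b ω y ≤ 1 := by
    have h1 := hdel y
    rw [if_pos rfl] at h1
    omega
  refine ⟨M, ?_, ?_, ?_⟩
  · -- M ≤ Q
    intro u v huv
    obtain ⟨u', hu⟩ := exists_ins i u
    obtain ⟨v', hv⟩ := exists_ins i v
    by_cases hc : u i = v i
    · rw [← hc] at hv
      rw [hu, hv] at huv ⊢
      rw [adj_ins_same]
      rw [hM, glue_adj_same] at huv
      by_cases hb' : u i = b
      · rw [hb', hAb] at huv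
        exact hM0.le huv.1
      · have : u i = !b := eq_not_of_ne hb'
        rw [this, hAb'] at huv
        exact hM1.le huv
    · have hc' : v i = !(u i) := eq_not_of_ne (fun h => hc h.symm)
      rw [hc'] at hv
      rw [hu, hv] at huv ⊢
      rw [hM, glue_adj_ne] at huv
      rw [adj_ins_ne (by cases u i <;> simp)]
      exact huv.1
  · -- degrees
    intro u
    obtain ⟨x, hu⟩ := exists_ins i u
    rw [hu]
    by_cases hb' : u i = b
    · rw [hb', hM, glue_deg, hAb]
      have h1 := hdel x
      have h2 : half i b ω x = ω (ins i b x) := rfl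
      have h3 : (if x ∈ ({x | x = y ∨ x = z} : Set (V n)) then 1 else 0) =
          (if x = y then 1 else 0) + (if x = z then 1 else 0) := by
        by_cases h4 : x = y
        · have h5 : x ≠ z := fun h => hne (h4.symm.trans h)
          rw [if_pos h4, if_neg h5, if_pos ((hmemC x).2 (Or.inl h4))]
        · by_cases h5 : x = z
          · rw [if_neg h4, if_pos h5, if_pos ((hmemC x).2 (Or.inr h5))]
          · rw [if_neg h4, if_neg h5, if_neg (fun h => ((hmemC x).1 h).elim h4 h5)]
      omega
    · have : u i = !b := eq_not_of_ne hb'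
      rw [this, hM, glue_deg, hAb']
      have h1 := hM1.deg x
      have h2 : half i (!b) ω x = ω (ins i (!b) x) := rfl
      have h3 : (if x ∈ ({x | x = y ∨ x = z} : Set (V n)) then 1 else 0) =
          (if x = y then 1 else 0) + (if x = z then 1 else 0) := by
        by_cases h4 : x = y
        · have h5 : x ≠ z := fun h => hne (h4.symm.trans h)
          rw [if_pos h4, if_neg h5, if_pos ((hmemC x).2 (Or.inl h4))]
        · by_cases h5 : x = z
          · rw [if_neg h4, if_pos h5, if_pos ((hmemC x).2 (Or.inr h5))]
          · rw [if_neg h4, if_neg h5, if_neg (fun h => ((hmemC x).1 h).elim h4 h5)]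
      omega
  · -- connectivity
    have toY : ∀ u, ω u ≤ 1 → G.Reachable u (ins i b y) := by
      intro u hωu
      obtain ⟨x, hu⟩ := exists_ins i u
      by_cases hb' : u i = b
      · rw [hb'] at hu
        rw [hu] at hωu ⊢
        exact g0 x y (hconn0 x y hωu hyh)
      · have : u i = !b := eq_not_of_ne hb'
        rw [this] at hu
        rw [hu] at hωu ⊢
        refine (g1 x y (hM1.conn x y ?_ ?_)).trans gy.symm
        · have h2 : half i (!b) ω x = ω (ins i (!b) x) := rfl
          by_cases h4 : x = y
          · have h5 : x ≠ z := fun h => hne (h4.symm.trans h)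
            simp only [if_pos h4, if_neg h5]
            rw [h4, hy]
          · by_cases h5 : x = z
            · simp only [if_neg h4, if_pos h5]
              rw [h5, hz]
            · simp only [if_neg h4, if_neg h5]
              omega
        · simp [hy, hne]
    intro u v hu hv
    exact (toY u hu).trans (toY v hv).symm

end Pool.Agent.Locke
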