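import Pool.Agent.Lib.MP_8a5648_co.Mg.G001
import Pool.Agent.Lib.MP_8a5648_co.Mg.G006
import Pool.Agent.Lib.MP_8a5648_co.Mg.G003
import Pool.Agent.Lib.MP_8a5648_co.Mg.G005
import Pool.Agent.Lib.MP_8a5648_co.Mg.G007

/-! # Locke's conjecture, part 2: assembling everything from the base facts -/

namespace Pool.Agent.Locke

/-- the base facts, all proved by kernel computation -/
structure Base : Prop where
  el3 : EL 3
  el4 : EL 4
  b14 : ∀ (p : Bool) (ω : V 4 → ℕ), (∀ x, ω x ≤ 2) → W p ω = 5 → W (!p) ω ≤ 4 → Comp p ω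
  b24 : ∀ (p : Bool) (ω : V 4 → ℕ), (∀ x, ω x ≤ 2) → W p ω = 6 → W (!p) ω ≤ 4 → Comp p ω
  sf4 : SF 4
  specA : SpecA
  specX : SpecX
  specF : SpecF
  specD : SpecD
  cyc6 : Cyc6

namespace Base

variable (h : Base)
include h

theorem b1_4 : B1 4 0 := fun p ω hω _ hp hq => h.b14 p ω hω (by omega) (by omega)
theorem b2_4 : B2 4 0 := fun p ω hω _ hp hq => h.b24 p ω hω (by omega) (by omega)
theorem el5 : EL 5 := EL5 h.el4 h.b1_4 h.b2_4
theorem b1_5 : B1 5 0 := B15 h.el4 h.b1_4 h.b2_4 (A5_of_spec h.specA)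
theorem sf5 : SF 5 := SF_step (by norm_num) h.el4 h.sf4
theorem st5 : ST2 5 5 := ST2_five h.el4 h.b24
theorem st6 : ST2 6 6 := ST2_step (by norm_num) h.el5 h.st5
theorem el6 : EL 6 := EL6 h.el5 h.b1_5 h.cyc6
theorem b1_6 : B1 6 1 := B16 h.el5 h.b1_5 h.st5
theorem b2_6 : B2 6 3 := B26 h.el5 h.b1_5 h.st5 h.st6
theorem sf6 : SF 6 := SF_step (by norm_num) h.el5 h.sf5
theorem d5 : DSC 5 1 1 1 := DSC_of_specD h.specD
theorem f5 : DSC 5 2 2 0 := DSC_of_specF h.specF
theorem d6 : DSC 6 2 1 1 := DSC_step_A (by norm_num) h.el5 (by norm_num) (by norm_num) h.d5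
  (by norm_num)
theorem f6 : DSC 6 2 2 0 := DSC_step_K (by norm_num) h.el5 (by norm_num) (by norm_num) h.f5
  (by norm_num)
theorem f7 : DSC 7 2 2 0 := DSC_step_K (by norm_num) h.el6 (by norm_num) (by norm_num) h.f6
  (by norm_num)
theorem f7' : DSC 7 3 2 0 := DSC_step_A (by norm_num) h.el6 (by norm_num) (by norm_num) h.f6
  (by norm_num)
theorem st7 : ST2 7 7 := ST2_step (by norm_num) h.el6 h.st6
theorem el7 : EL 7 := EL7 h.el6 h.b1_6 h.b2_6 h.d6
theorem x6 (p : Bool) (c : V 6) (a b : Fin 6) (ω : V 6 → ℕ) (hx : XS p c a b ω) : Comp p ω :=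
  XS_step (m := 5) (by norm_num) h.el5 (fun p c a b ω hx => XS5_of_spec h.specX p c a b ω hx)
    p c a b ω hx
theorem x7 (p : Bool) (c : V 7) (a b : Fin 7) (ω : V 7 → ℕ) (hx : XS p c a b ω) : Comp p ω :=
  XS_step (m := 6) (by norm_num) h.el6 h.x6 p c a b ω hx
theorem x8 (p : Bool) (c : V 8) (a b : Fin 8) (ω : V 8 → ℕ) (hx : XS p c a b ω) : Comp p ω :=
  XS_step (m := 7) (by norm_num) h.el7 h.x7 p c a b ω hx

/-- levels 6 to 10 -/
theorem mid (k : ℕ) (hk : k ≤ 4) : EL (k + 6) ∧ B1 (k + 6) 1 ∧ B2 (k + 6) 3 ∧ SF (k + 6) := by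
  induction k with
  | zero => exact ⟨h.el6, h.b1_6, h.b2_6, h.sf6⟩
  | succ k ih =>
    obtain ⟨a, b, c, d⟩ := ih (by omega)
    have hs : SF (k + 6 + 1) := SF_step (by omega) a d
    refine ⟨?_, ?_, ?_, ?_⟩
    · rcases Nat.eq_zero_or_pos k with h0 | h0
      · subst h0; exact h.el7
      · have := EL_mid (m := k + 6) (by omega) a b c
        rwa [show k + 1 + 6 = k + 6 + 1 by omega]
    · have := B1_mid (m := k + 6) (by omega) (by omega) a b c hs h.st6 h.f7 h.f7'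
      rwa [show k + 1 + 6 = k + 6 + 1 by omega]
    · have := B2_mid (m := k + 6) (by omega) (by omega) a b c hs h.st7 h.x8
      rwa [show k + 1 + 6 = k + 6 + 1 by omega]
    · rwa [show k + 1 + 6 = k + 6 + 1 by omega]

/-- levels 10 and above -/
theorem large (k : ℕ) : EL (k + 10) ∧ B1 (k + 10) 2 ∧ B2 (k + 10) 4 := by
  induction k with
  | zero =>
    obtain ⟨a, b, c, -⟩ := h.mid 4 le_rfl
    exact ⟨a, fun p ω hω hP hp hq => b p ω hω hP hp (by omega),
      fun p ω hω hP hp hq => c p ω hω hP hp (by omega)⟩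
  | succ k ih =>
    obtain ⟨a, b, c⟩ := ih
    have h1 := EL_large (m := k + 10) (by omega) a b c
    have h2 := B1_large (m := k + 10) (by omega) a b c
    have h3 := B2_large (m := k + 10) (by omega) a b c
    rw [show k + 1 + 10 = k + 10 + 1 by omega]
    exact ⟨h1, h2, h3⟩

end Base

theorem EL_all (h : Base) : ∀ n, 3 ≤ n → EL n := by
  intro n hn
  rcases Nat.lt_or_ge n 6 with h6 | h6
  · interval_cases n
    · exact h.el3
    · exact h.el4
    · exact h.el5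
  · rcases Nat.lt_or_ge n 10 with h10 | h10
    · obtain ⟨a, -⟩ := h.mid (n - 6) (by omega)
      rwa [show n - 6 + 6 = n by omega] at a
    · obtain ⟨a, -⟩ := h.large (n - 10)
      rwa [show n - 10 + 10 = n by omega] at a

end Pool.Agent.Locke
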