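import Pool.Agent.Lib.MP_8a5648_co.Mg.G004
import Pool.Agent.Lib.MP_8a5648_co.Mg.G005

/-! # Locke's conjecture, base facts: the exceptional configuration of dimension 6 -/

namespace Pool.Agent.Locke

lemma cyc6S_eq : ∀ x : V 6, (if (par x = false ∧ x 3 = false ∧ x 4 = false ∧ x 5 = false) ∨
     (par x = true ∧ x 0 = false ∧ x 1 = false ∧ x 2 = false) then 2 else 0) =
     wt 6 c6code x := by
  decide +kernel

theorem cyc6 : Cyc6 := by
  unfold Cyc6
  have h := chkD_sound c6_ok
  have e : (fun x : V 6 =>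
      if (par x = false ∧ x 3 = false ∧ x 4 = false ∧ x 5 = false) ∨
        (par x = true ∧ x 0 = false ∧ x 1 = false ∧ x 2 = false) then 2 else 0) =
      wt 6 c6code := funext cyc6S_eq
  rw [e]
  exact h

end Pool.Agent.Locke
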