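import Pool.Agent.Lib.MP_8a5648_co.Mg.G010
import Pool.Agent.Lib.MP_8a5648_co.Mg.G009

/-! # Locke's conjecture, base facts: stars with a faulty centre in dimension 4 -/

namespace Pool.Agent.Locke

lemma sf4S_ev : ev4 = 0 :: evs4 := by decide

lemma sf4S_od (f : ℕ → ℕ) (h7 : f 7 = 0) (h11 : f 11 = 0) (h13 : f 13 = 0) (h14 : f 14 = 0) :
    (od4.map f).sum = f 1 + f 2 + f 4 + f 8 := by
  simp only [od4, List.map_cons, List.map_nil, List.sum_cons, List.sum_nil, h7, h11, h13, h14]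
  ring

lemma sf4S_neg : ∀ k ∈ [7, 11, 13, 14], ∀ j : Fin 4, vtx 4 k ≠ flip (vtx 4 0) j := by
  decide

lemma sf4S_negpar : ∀ k ∈ [7, 11, 13, 14], par (vtx 4 k) = true := by
  decide

/-- the normalised case: centre `0`, light class of weight 4 -/
lemma sf4S_norm (ω : V 4 → ℕ) (hω : ∀ x, ω x ≤ 2) (hs : Star true (vtx 4 0) ω)
    (hc : ω (vtx 4 0) = 2) (h1 : 7 ≤ W true ω) (h2 : W false ω = 4) : Comp true ω := by
  have hz : ∀ k ∈ [7, 11, 13, 14], ω (vtx 4 k) = 0 := by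
    intro k hk
    by_contra h0
    obtain ⟨j, hj⟩ := hs.2 _ (sf4S_negpar k hk) h0
    exact sf4S_neg k hk j hj
  have h7 := hz 7 (by decide)
  have h11 := hz 11 (by decide)
  have h13 := hz 13 (by decide)
  have h14 := hz 14 (by decide)
  have hT : W true ω = ω (vtx 4 1) + ω (vtx 4 2) + ω (vtx 4 4) + ω (vtx 4 8) := by
    rw [W_true_four]
    exact sf4S_od (fun k => ω (vtx 4 k)) h7 h11 h13 h14
  have hO : ocode ω = ω (vtx 4 1) * 3 + ω (vtx 4 2) * 9 + ω (vtx 4 4) * 81 +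
      ω (vtx 4 8) * 6561 := by
    have := sf4S_od (fun k => ω (vtx 4 k) * 3 ^ k) (by simp [h7]) (by simp [h11]) (by simp [h13])
      (by simp [h14])
    have e : ocode ω = (od4.map fun k => ω (vtx 4 k) * 3 ^ k).sum := rfl
    rw [e, this]
    norm_num
  have hF : W false ω = 2 + (evs4.map fun k => ω (vtx 4 k)).sum := by
    rw [W_false_four, sf4S_ev, List.map_cons, List.sum_cons, hc]
  have hE : ecode ω = (evs4.map fun k => ω (vtx 4 k) * 3 ^ k).sum + 2 := by
    have e : ecode ω = (ev4.map fun k => ω (vtx 4 k) * 3 ^ k).sum := rfl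
    rw [e, sf4S_ev, List.map_cons, List.sum_cons, hc]
    ring
  have hm := mem_allCodes evs4 (fun k => ω (vtx 4 k)) (fun k => hω _)
  have hs2 : (evs4.map fun k => ω (vtx 4 k)).sum = 2 := by omega
  rw [hs2] at hm
  have key : ∀ (F r : ℕ) (sp : List (ℕ × List ℕ × Cert)), sfOK F r sp = true → ocode ω = r →
      W true ω = W false ω + F → Comp true ω := by
    intro F r sp h hr hW
    unfold sfOK at h
    rw [List.all_eq_true] at h
    have h3 := h _ hm
    rw [List.any_eq_true] at h3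
    obtain ⟨q, -, hq⟩ := h3
    rw [Bool.and_eq_true] at hq
    exact leafU_sound hq.2 hω hr hE hW
  have b1 := hω (vtx 4 1)
  have b2 := hω (vtx 4 2)
  have b4 := hω (vtx 4 4)
  have b8 := hω (vtx 4 8)
  rcases (by omega : (ω (vtx 4 1) = 2 ∧ ω (vtx 4 2) = 2 ∧ ω (vtx 4 4) = 2 ∧ ω (vtx 4 8) = 2) ∨
      (ω (vtx 4 1) = 1 ∧ ω (vtx 4 2) = 2 ∧ ω (vtx 4 4) = 2 ∧ ω (vtx 4 8) = 2) ∨
      (ω (vtx 4 1) = 2 ∧ ω (vtx 4 2) = 1 ∧ ω (vtx 4 4) = 2 ∧ ω (vtx 4 8) = 2) ∨
      (ω (vtx 4 1) = 2 ∧ ω (vtx 4 2) = 2 ∧ ω (vtx 4 4) = 1 ∧ ω (vtx 4 8) = 2) ∨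
      (ω (vtx 4 1) = 2 ∧ ω (vtx 4 2) = 2 ∧ ω (vtx 4 4) = 2 ∧ ω (vtx 4 8) = 1)) with
    ⟨e1, e2, e4, e8⟩ | ⟨e1, e2, e4, e8⟩ | ⟨e1, e2, e4, e8⟩ | ⟨e1, e2, e4, e8⟩ | ⟨e1, e2, e4, e8⟩
  · exact key 4 _ _ sf4_4 (by rw [hO, e1, e2, e4, e8]) (by rw [hT, h2, e1, e2, e4, e8])
  · exact key 3 _ _ sf4_0 (by rw [hO, e1, e2, e4, e8]) (by rw [hT, h2, e1, e2, e4, e8])
  · exact key 3 _ _ sf4_1 (by rw [hO, e1, e2, e4, e8]) (by rw [hT, h2, e1, e2, e4, e8])
  · exact key 3 _ _ sf4_2 (by rw [hO, e1, e2, e4, e8]) (by rw [hT, h2, e1, e2, e4, e8])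
  · exact key 3 _ _ sf4_3 (by rw [hO, e1, e2, e4, e8]) (by rw [hT, h2, e1, e2, e4, e8])

lemma sf4S_trans_zero (c : V 4) : transIso c (vtx 4 0) = c := by
  revert c
  decide

lemma sf4S_trans_flip (c x : V 4) (j : Fin 4) (h : transIso c x = flip c j) :
    x = flip (vtx 4 0) j := by
  revert c x j
  decide

lemma sf4S_raise (p : Bool) (c : V 4) : ∀ (k : ℕ) (ω : V 4 → ℕ),
    (∀ x, ω x ≤ 2) → Star p c ω → ω c = 2 → 7 ≤ W p ω → W (!p) ω + k = 4 → Comp p ω := by
  intro k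
  induction k with
  | zero =>
    intro ω hω hs hc h1 h2
    rw [add_zero] at h2
    have hpc : par c = !p := hs.1
    have h3 := comp_trans c true ω
    have e : xor (par c) true = p := by
      rw [hpc]
      cases p <;> rfl
    rw [e] at h3
    rw [← h3]
    refine sf4S_norm _ (fun x => hω _) ⟨by decide, ?_⟩ ?_ ?_ ?_
    · intro x hx h0
      have hpx : par (transIso c x) = p := by
        rw [par_trans, hx, hpc]
        cases p <;> rfl
      obtain ⟨j, hj⟩ := hs.2 _ hpx h0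
      exact ⟨j, sf4S_trans_flip c x j hj⟩
    · rw [sf4S_trans_zero]
      exact hc
    · rw [W_comp_trans, hpc]
      have e2 : xor true (!p) = p := by cases p <;> rfl
      rw [e2]
      exact h1
    · rw [W_comp_trans, hpc, Bool.false_xor]
      exact h2
  | succ k ih =>
    intro ω hω hs hc h1 h2
    have hz := zeros_card (m := 3) (!p) ω
    obtain ⟨x, hx⟩ : (Finset.univ.filter
        (fun x : V (3 + 1) => par x = !p ∧ ω x = 0)).Nonempty := by
      rw [← Finset.card_pos]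
      have : (2 : ℕ) ^ 3 = 8 := by norm_num
      omega
    rw [Finset.mem_filter] at hx
    obtain ⟨-, hx1, hx2⟩ := hx
    refine comp_of_raise hx1 hx2 (ih _ ?_ ⟨hs.1, ?_⟩ ?_ ?_ ?_)
    · intro y
      by_cases hy : y = x
      · rw [if_pos hy, hy, hx2]
        norm_num
      · rw [if_neg hy, add_zero]
        exact hω y
    · intro y hy h0
      have hyx : y ≠ x := by
        rintro rfl
        rw [hx1] at hy
        cases p <;> simp at hy
      have h0' : ω y + (if y = x then 1 else 0) ≠ 0 := h0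
      rw [if_neg hyx, add_zero] at h0'
      exact hs.2 y hy h0'
    · have hcx : c ≠ x := by
        rintro rfl
        omega
      show ω c + (if c = x then 1 else 0) = 2
      rw [if_neg hcx, add_zero]
      exact hc
    · rw [W_add]
      omega
    · rw [W_add, top_W_single, hx1, if_pos rfl]
      omega

theorem sf4 : SF 4 := by
  intro p c ω hω hs hc h1 h2
  by_cases h7 : 7 ≤ W p ω
  · exact sf4S_raise p c (4 - W (!p) ω) ω hω hs hc h7 (by omega)
  · by_cases h5 : W p ω = 5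
    · exact b14 p ω hω h5 (by omega)
    · exact b24 p ω hω (by omega) (by omega)

end Pool.Agent.Locke
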