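import Pool.Agent.Lib.MP_8a5648_co.Mg.G008
import Pool.Agent.Lib.MP_8a5648_co.Mg.G009
import Pool.Agent.Lib.MP_8a5648_co.Mg.G003

/-! # Locke's conjecture, base facts: the special configurations of dimension 5 -/

namespace Pool.Agent.Locke

lemma spec5_foldl (us : List ℕ) (hu : us.Nodup) (c : ℕ) (h0 : ∀ k ∈ us, dg c k = 0) (j : ℕ) :
    dg (us.foldl (fun a k => a + 3 ^ k) c) j = dg c j + if j ∈ us then 1 else 0 := by
  induction us generalizing c with
  | nil => simp
  | cons k us ih =>
    rw [List.foldl_cons]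
    have hk : dg c k = 0 := h0 k List.mem_cons_self
    have hnd := List.nodup_cons.1 hu
    have h1 : ∀ k' ∈ us, dg (c + 3 ^ k) k' = 0 := by
      intro k' hk'
      rw [dg_add_pow c k k' (by omega), h0 k' (List.mem_cons_of_mem _ hk'), if_neg]
      rintro rfl
      exact hnd.1 hk'
    rw [ih hnd.2 _ h1, dg_add_pow c k j (by omega)]
    by_cases hj : j = k
    · subst hj
      rw [if_pos rfl, if_neg hnd.1, if_pos List.mem_cons_self]
    · rw [if_neg hj]
      by_cases hj' : j ∈ us
      · rw [if_pos hj', if_pos (List.mem_cons_of_mem _ hj')]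
      · rw [if_neg hj', if_neg]
        rw [List.mem_cons]
        push Not
        exact ⟨hj, hj'⟩

lemma spec5_okc_lt (L : List ℕ) (c s : ℕ) (h : okc L c s = true) : s < 3 ^ L.length := by
  induction L generalizing s with
  | nil =>
    unfold okc at h
    rw [beq_iff_eq] at h
    rw [h]
    simp
  | cons P L ih =>
    unfold okc at h
    rw [Bool.and_eq_true] at h
    have h2 := ih _ h.2
    rw [List.length_cons, pow_succ]
    omega

lemma spec5_dg_succ (c k : ℕ) : dg c (k + 1) = dg (c / 3) k := by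
  unfold dg
  rw [Nat.div_div_eq_div_mul, pow_succ']

lemma spec5_zero (N : ℕ) (s : ℕ) (hs : s < 3 ^ N) (h : ∀ k < N, dg s k = 0) : s = 0 := by
  induction N generalizing s with
  | zero => simpa using hs
  | succ N ih =>
    have h0 := h 0 (Nat.succ_pos N)
    have h1 : s / 3 = 0 := by
      apply ih
      · rw [pow_succ] at hs
        omega
      · intro k hk
        rw [← spec5_dg_succ]
        exact h (k + 1) (by omega)
    unfold dg at h0
    simp only [pow_zero, Nat.div_one] at h0
    omega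

lemma spec5_dsum (N c : ℕ) : dsum N c = ∑ k ∈ Finset.range N, dg c k := by
  induction N generalizing c with
  | zero => simp [dsum]
  | succ N ih =>
    rw [Finset.sum_range_succ']
    unfold dsum
    rw [ih]
    have h : ∀ k ∈ Finset.range N, dg (c / 3) k = dg c (k + 1) := by
      intro k _
      rw [spec5_dg_succ]
    rw [Finset.sum_congr rfl h, add_comm]
    congr 1
    unfold dg
    simp

lemma spec5_sum4 (c : ℕ) : ∑ x, wt 4 c x = dsum 16 c := by
  rw [sum_vtx, spec5_dsum]
  have h16 : (2 : ℕ) ^ 4 = 16 := by norm_num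
  rw [h16]
  apply Finset.sum_congr rfl
  intro k hk
  exact wt_vtx c (Finset.mem_range.1 hk)

lemma spec5_chk5 {c i s : ℕ} {r0 r1 : Cert} (h : chk5 c i s r0 r1 = true) : Good (wt 5 c) := by
  unfold chk5 at h
  simp only [Bool.and_eq_true] at h
  obtain ⟨⟨⟨⟨⟨⟨hi, hs⟩, ho0⟩, ho1⟩, hev⟩, hc0⟩, hc1⟩ := h
  have hi' : i < 5 := by
    rw [Nat.blt_eq] at hi
    exact hi
  have hs0 : s ≠ 0 := by
    rintro rfl
    simp at hs
  obtain ⟨i, rfl⟩ : ∃ j : Fin 5, i = (j : ℕ) := ⟨⟨i, hi'⟩, rfl⟩
  have hA := hc5_sound (c := c) (s := s) i false ho0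
  have hB := hc5_sound (c := c) (s := s) i true ho1
  have hlen : (pl5 (i : ℕ) false).length = 16 := by
    fin_cases i <;> rfl
  have hslt := spec5_okc_lt _ _ _ ho0
  rw [hlen] at hslt
  apply good_of_split i (wt 5 c) (wt_le c) (Finset.univ.filter fun x : V 4 => dg s (idx x) = 1)
  · by_contra hne
    rw [Finset.not_nonempty_iff_eq_empty] at hne
    apply hs0
    apply spec5_zero 16 s hslt
    intro k hk
    rcases hA.1 (vtx 4 k) with h1 | ⟨h1, -⟩
    · rw [idx_vtx (by norm_num; exact hk)] at h1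
      exact h1
    · exfalso
      have : vtx 4 k ∈ (Finset.univ.filter fun x : V 4 => dg s (idx x) = 1) := by
        rw [Finset.mem_filter]
        exact ⟨Finset.mem_univ _, h1⟩
      rw [hne] at this
      exact absurd this (Finset.notMem_empty _)
  · intro x hx b
    rw [Finset.mem_filter] at hx
    cases b
    · rcases hA.1 x with h1 | ⟨-, h1⟩
      · rw [hx.2] at h1
        exact absurd h1 one_ne_zero
      · exact h1
    · rcases hB.1 x with h1 | ⟨-, h1⟩
      · rw [hx.2] at h1
        exact absurd h1 one_ne_zero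
      · exact h1
  · rw [hA.2]
    exact chk4_sound r0 _ hc0
  · rw [hB.2]
    exact chk4_sound r1 _ hc1
  · rw [hA.2, spec5_sum4]
    exact Nat.even_iff.2 (Nat.beq_eq.mp hev)

lemma spec5_filter_true : (Finset.range (2 ^ 5)).filter (fun k => par (vtx 5 k) = true) =
    od5.toFinset := by decide +kernel

lemma spec5_filter_false : (Finset.range (2 ^ 5)).filter (fun k => par (vtx 5 k) = false) =
    ev5.toFinset := by decide +kernel

lemma spec5_ev5 : ∀ k ∈ ev5, k < 32 ∧ par (vtx 5 k) = false := by decide +kernel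

lemma spec5_ev_lt : ∀ k ∈ ev5, k < 2 ^ 5 := by decide +kernel

lemma spec5_od_lt : ∀ k ∈ od5, k < 2 ^ 5 := by decide +kernel

lemma spec5_W_true (c : ℕ) : W true (wt 5 c) = (od5.map (dg c)).sum := by
  have h : od5.map (fun k => wt 5 c (vtx 5 k)) = od5.map (dg c) :=
    List.map_congr_left fun k hk => wt_vtx c (spec5_od_lt k hk)
  have h1 : W true (wt 5 c) = ∑ k ∈ od5.toFinset, wt 5 c (vtx 5 k) := by
    rw [W_vtx, spec5_filter_true]
  have h2 : ∑ k ∈ od5.toFinset, wt 5 c (vtx 5 k) = (od5.map (fun k => wt 5 c (vtx 5 k))).sum :=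
    List.sum_toFinset _ (by decide)
  rw [h1, h2, h]

lemma spec5_W_false (c : ℕ) : W false (wt 5 c) = (ev5.map (dg c)).sum := by
  have h : ev5.map (fun k => wt 5 c (vtx 5 k)) = ev5.map (dg c) :=
    List.map_congr_left fun k hk => wt_vtx c (spec5_ev_lt k hk)
  have h1 : W false (wt 5 c) = ∑ k ∈ ev5.toFinset, wt 5 c (vtx 5 k) := by
    rw [W_vtx, spec5_filter_false]
  have h2 : ∑ k ∈ ev5.toFinset, wt 5 c (vtx 5 k) = (ev5.map (fun k => wt 5 c (vtx 5 k))).sum :=
    List.sum_toFinset _ (by decide)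
  rw [h1, h2, h]

theorem comp5_sound {c : ℕ} {us : List ℕ} {i s : ℕ} {r0 r1 : Cert}
    (h : comp5 c us i s r0 r1 = true) : Comp true (wt 5 c) := by
  unfold comp5 at h
  simp only [Bool.and_eq_true] at h
  obtain ⟨⟨⟨⟨-, hnd⟩, hall⟩, hsum⟩, hck⟩ := h
  have hnd' : us.Nodup := of_decide_eq_true hnd
  have hsum' : (od5.map (dg c)).sum = (ev5.map (dg c)).sum + us.length := Nat.beq_eq.mp hsum
  have hus : ∀ k ∈ us, k ∈ ev5 ∧ dg c k = 0 := by
    intro k hk
    have h1 := List.all_eq_true.1 hall k hk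
    rw [Bool.and_eq_true] at h1
    exact ⟨List.contains_iff_mem.1 h1.1, Nat.beq_eq.mp h1.2⟩
  have hinj : Set.InjOn (vtx 5) (us.toFinset : Set ℕ) := by
    intro a ha b hb hab
    rw [Finset.mem_coe, List.mem_toFinset] at ha hb
    have ha' := spec5_ev_lt a (hus a ha).1
    have hb' := spec5_ev_lt b (hus b hb).1
    have := congrArg idx hab
    rw [idx_vtx ha', idx_vtx hb'] at this
    exact this
  refine ⟨us.toFinset.image (vtx 5), ?_, ?_, ?_⟩
  · intro x hx
    rw [Finset.mem_image] at hx
    obtain ⟨k, hk, rfl⟩ := hx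
    rw [List.mem_toFinset] at hk
    refine ⟨?_, ?_⟩
    · rw [(spec5_ev5 k (hus k hk).1).2]
      rfl
    · rw [wt_vtx c (spec5_ev_lt k (hus k hk).1)]
      exact (hus k hk).2
  · rw [Finset.card_image_of_injOn hinj, List.toFinset_card_of_nodup hnd', Bool.not_true,
      spec5_W_false, spec5_W_true]
    omega
  · have hg := spec5_chk5 hck
    have he : plus (wt 5 c) (us.toFinset.image (vtx 5)) =
        wt 5 (us.foldl (fun a k => a + 3 ^ k) c) := by
      funext x
      unfold plus ind wt
      rw [spec5_foldl us hnd' c (fun k hk => (hus k hk).2)]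
      congr 1
      by_cases hx : idx x ∈ us
      · rw [if_pos hx, if_pos]
        rw [Finset.mem_image]
        exact ⟨idx x, List.mem_toFinset.2 hx, vtx_idx x⟩
      · rw [if_neg hx, if_neg]
        rw [Finset.mem_image]
        rintro ⟨k, hk, rfl⟩
        rw [List.mem_toFinset] at hk
        rw [idx_vtx (spec5_ev_lt k (hus k hk).1)] at hx
        exact hx hk
    rw [he]
    exact hg

/-- the codes of the configurations of `SpecA` -/
def spec5cA : ℕ → ℕ
  | 1 => 258307027
  | 2 => 774907531
  | 4 => 6974107963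
  | 7 => 188300714307
  | 8 => 564859689883
  | 11 => 15251209404387
  | 13 => 137260769636787
  | 14 => 411782279136171
  | 16 => 286432888283
  | 19 => 7720257231267
  | 21 => 68728136475507
  | 22 => 205989149486571
  | 25 => 76538533572627
  | 26 => 213799546661451
  | 28 => 274807426850043
  | 31 => 282241278827907
  | _ => 0

lemma spec5_A_eq : ∀ k ∈ od5, ∀ x : V 5,
    starW z5 ![2, 2, 2, 1, 0] x + starW (vtx 5 k) ![1, 1, 1, 1, 2] x = wt 5 (spec5cA k) x := by
  decide +kernel

lemma spec5_A_idx : ∀ b0 : V 5, par b0 = true → idx b0 ∈ od5 := by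
  decide +kernel

lemma spec5_A_comp : ∀ k ∈ od5, Comp true (wt 5 (spec5cA k)) := by
  intro k hk
  unfold od5 at hk
  simp only [List.mem_cons, List.not_mem_nil, or_false] at hk
  rcases hk with rfl | rfl | rfl | rfl | rfl | rfl | rfl | rfl | rfl | rfl | rfl | rfl | rfl |
    rfl | rfl | rfl
  · exact comp5_sound c5_A_1
  · exact comp5_sound c5_A_2
  · exact comp5_sound c5_A_4
  · exact comp5_sound c5_A_7
  · exact comp5_sound c5_A_8
  · exact comp5_sound c5_A_11
  · exact comp5_sound c5_A_13
  · exact comp5_sound c5_A_14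
  · exact comp5_sound c5_A_16
  · exact comp5_sound c5_A_19
  · exact comp5_sound c5_A_21
  · exact comp5_sound c5_A_22
  · exact comp5_sound c5_A_25
  · exact comp5_sound c5_A_26
  · exact comp5_sound c5_A_28
  · exact comp5_sound c5_A_31

theorem specA : SpecA := by
  intro b0 hb0
  have hk := spec5_A_idx b0 hb0
  have h1 := spec5_A_comp (idx b0) hk
  have h2 : (fun x => starW z5 ![2, 2, 2, 1, 0] x + starW b0 ![1, 1, 1, 1, 2] x) =
      wt 5 (spec5cA (idx b0)) := by
    funext x
    have := spec5_A_eq (idx b0) hk x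
    rw [vtx_idx] at this
    exact this
  rw [h2]
  exact h1

/-- the configurations of `SpecX` -/
def spec5fX (s0 s1 s2 : Bool) : V 5 → ℕ :=
  fun x => starW z5 ![2, 2, 2, 1, 1] x + (if x = z5 then 1 else 0) +
    (if x = flip (flip z5 3) 4 then 2 else 0) +
    (if x = flip (flip z5 0) (if s0 then 4 else 3) then 1 else 0) +
    (if x = flip (flip z5 1) (if s1 then 4 else 3) then 1 else 0) +
    (if x = flip (flip z5 2) (if s2 then 4 else 3) then 1 else 0)

/-- the codes of the configurations of `SpecX` -/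
def spec5cX : Bool → Bool → Bool → ℕ
  | false, false, false => 564902736604
  | true, false, false => 565031857084
  | false, true, false => 565290098044
  | true, true, false => 565419218524
  | false, false, true => 568388989564
  | true, false, true => 568518110044
  | false, true, true => 568776351004
  | true, true, true => 568905471484

lemma spec5_X_eq : ∀ s0 s1 s2 : Bool, ∀ x : V 5,
    spec5fX s0 s1 s2 x = wt 5 (spec5cX s0 s1 s2) x := by
  decide +kernel

lemma spec5_X_comp (s0 s1 s2 : Bool) : Comp true (wt 5 (spec5cX s0 s1 s2)) := by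
  cases s0 <;> cases s1 <;> cases s2
  · exact comp5_sound c5_X_0
  · exact comp5_sound c5_X_4
  · exact comp5_sound c5_X_2
  · exact comp5_sound c5_X_6
  · exact comp5_sound c5_X_1
  · exact comp5_sound c5_X_5
  · exact comp5_sound c5_X_3
  · exact comp5_sound c5_X_7

theorem specX : SpecX := by
  intro s0 s1 s2
  have h1 := spec5_X_comp s0 s1 s2
  have h2 : spec5fX s0 s1 s2 = wt 5 (spec5cX s0 s1 s2) := funext (spec5_X_eq s0 s1 s2)
  rw [← h2] at h1
  exact h1

lemma spec5_F_eq : ∀ x : V 5, ds z5 2 ![2, 2, 2, 1, 1] ![1, 1, 0, 2, 2] x = wt 5 7017686124 x := by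
  decide +kernel

theorem specF : SpecF := by
  unfold SpecF
  have h2 : ds z5 2 ![2, 2, 2, 1, 1] ![1, 1, 0, 2, 2] = wt 5 7017686124 := funext spec5_F_eq
  rw [h2]
  exact comp5_sound c5_F_0

lemma spec5_D_eq : ∀ x : V 5,
    ds z5 4 ![2, 2, 2, 1, 1] ![1, 1, 1, 2, 1] x = wt 5 568905471484 x := by
  decide +kernel

theorem specD : SpecD := by
  unfold SpecD
  have h2 : ds z5 4 ![2, 2, 2, 1, 1] ![1, 1, 1, 2, 1] = wt 5 568905471484 := funext spec5_D_eq
  rw [h2]
  exact comp5_sound c5_D_0

end Pool.Agent.Locke
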